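import Mathlib

set_option autoImplicit false

namespace Pool.Agent.X280.UR

variable {F : Type} [Field F]
variable {V W U : Type} [AddCommGroup V] [Module F V] [AddCommGroup W] [Module F W]
  [AddCommGroup U] [Module F U]

/-- finite rank linear maps -/
def FR (x : V →ₗ[F] W) : Prop := FiniteDimensional F (LinearMap.range x)

theorem FR.zero : FR (0 : V →ₗ[F] W) := by
  unfold FR
  rw [LinearMap.range_zero]
  infer_instance

theorem FR.add {x y : V →ₗ[F] W} (hx : FR x) (hy : FR y) : FR (x + y) := by
  unfold FR at *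
  have : LinearMap.range (x + y) ≤ LinearMap.range x ⊔ LinearMap.range y := by
    rintro _ ⟨v, rfl⟩
    rw [LinearMap.add_apply]
    exact Submodule.add_mem_sup ⟨v, rfl⟩ ⟨v, rfl⟩
  exact Submodule.finiteDimensional_of_le this

theorem FR.neg {x : V →ₗ[F] W} (hx : FR x) : FR (-x) := by
  unfold FR at *
  rwa [LinearMap.range_neg]

theorem FR.sub {x y : V →ₗ[F] W} (hx : FR x) (hy : FR y) : FR (x - y) := by
  rw [sub_eq_add_neg]
  exact hx.add hy.neg

theorem FR.comp_left {x : V →ₗ[F] W} (hx : FR x) (y : W →ₗ[F] U) : FR (y ∘ₗ x) := by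
  unfold FR at *
  rw [LinearMap.range_comp]
  infer_instance

theorem FR.comp_right {x : V →ₗ[F] W} (hx : FR x) (y : U →ₗ[F] V) : FR (x ∘ₗ y) := by
  unfold FR at *
  exact Submodule.finiteDimensional_of_le (LinearMap.range_comp_le_range y x)

theorem FR.of_finite_dom [FiniteDimensional F V] (x : V →ₗ[F] W) : FR x := by
  unfold FR
  infer_instance

theorem FR.mul_left {x : Module.End F V} (hx : FR x) (y : Module.End F V) : FR (y * x) :=
  hx.comp_left y

theorem FR.mul_right {x : Module.End F V} (hx : FR x) (y : Module.End F V) : FR (x * y) :=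
  hx.comp_right y

/-- a finite rank perturbation of the identity which is surjective is injective -/
theorem pert_inj {n : Module.End F V} (hn : FR n) (hs : Function.Surjective (1 + n : Module.End F V)) :
    Function.Injective (1 + n : Module.End F V) := by
  unfold FR at hn
  have hmap : ∀ v ∈ LinearMap.range n, (1 + n) v ∈ LinearMap.range n := by
    intro v hv
    rw [LinearMap.add_apply, Module.End.one_apply]
    exact Submodule.add_mem _ hv ⟨v, rfl⟩
  let g := (1 + n).restrict hmap
  have hgs : Function.Surjective g := by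
    rintro ⟨u, hu⟩
    obtain ⟨v, hv⟩ := hs u
    rw [LinearMap.add_apply, Module.End.one_apply] at hv
    have hv' : v ∈ LinearMap.range n := by
      have : v = u - n v := by rw [← hv]; abel
      rw [this]
      exact Submodule.sub_mem _ hu ⟨v, rfl⟩
    refine ⟨⟨v, hv'⟩, ?_⟩
    apply Subtype.ext
    exact hv
  have hgi : Function.Injective g := LinearMap.injective_iff_surjective.2 hgs
  rw [injective_iff_map_eq_zero]
  intro v hv
  have hv2 := hv
  rw [LinearMap.add_apply, Module.End.one_apply] at hv
  have hv' : v ∈ LinearMap.range n := by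
    have : v = n (-v) := by
      rw [map_neg]
      exact eq_neg_of_add_eq_zero_left hv
    rw [this]
    exact ⟨_, rfl⟩
  have := hgi (a₁ := ⟨v, hv'⟩) (a₂ := 0) (by
    apply Subtype.ext
    change (1 + n) v = _
    rw [hv2, map_zero]
    rfl)
  exact congrArg Subtype.val this

/-- finite rank operators are regular -/
theorem FR.exists_quasi {x : Module.End F V} (hx : FR x) :
    ∃ z : Module.End F V, FR z ∧ x * z * x = x := by
  unfold FR at hx
  obtain ⟨s, hs⟩ := LinearMap.exists_rightInverse_of_surjective x.rangeRestrict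
    (LinearMap.range_rangeRestrict x)
  obtain ⟨p, hp⟩ := LinearMap.exists_leftInverse_of_injective (LinearMap.range x).subtype
    (Submodule.ker_subtype _)
  refine ⟨s ∘ₗ p, ?_, ?_⟩
  · exact (FR.of_finite_dom s).comp_right p
  · ext v
    change x (s (p (x v))) = x v
    have h1 : p (x v) = x.rangeRestrict v := LinearMap.congr_fun hp (x.rangeRestrict v)
    rw [h1]
    have h2 := LinearMap.congr_fun hs (x.rangeRestrict v)
    exact congrArg Subtype.val h2

/-- rank one operators -/
def rk1 (ξ : V →ₗ[F] F) (w : W) : V →ₗ[F] W := (LinearMap.toSpanSingleton F W w) ∘ₗ ξ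

theorem rk1_apply (ξ : V →ₗ[F] F) (w : W) (v : V) : rk1 ξ w v = ξ v • w := rfl

theorem rk1_FR (ξ : V →ₗ[F] F) (w : W) : FR (rk1 ξ w) :=
  (FR.of_finite_dom _).comp_right ξ

theorem FR.exists_sum {x : V →ₗ[F] W} (hx : FR x) :
    ∃ (n : ℕ) (ξ : Fin n → V →ₗ[F] F) (w : Fin n → W), x = ∑ i, rk1 (ξ i) (w i) := by
  unfold FR at hx
  let b := Module.finBasis F (LinearMap.range x)
  refine ⟨_, fun i => (b.coord i) ∘ₗ x.rangeRestrict, fun i => (b i : W), ?_⟩
  ext v
  rw [LinearMap.sum_apply]
  simp only [rk1_apply, LinearMap.comp_apply, Module.Basis.coord_apply]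
  have := congrArg Subtype.val (b.sum_repr (x.rangeRestrict v))
  rw [Submodule.coe_sum] at this
  simp only [Submodule.coe_smul] at this
  exact this.symm

/-- the rank one operator factors through any nonzero operator -/
theorem rk1_factor (z : Module.End F V) (hz : z ≠ 0) (ξ : V →ₗ[F] F) (w : V) :
    ∃ a b : Module.End F V, FR a ∧ FR b ∧ a * z * b = rk1 ξ w := by
  obtain ⟨v, hv⟩ : ∃ v, z v ≠ 0 := by
    by_contra h
    push Not at h
    exact hz (LinearMap.ext h)
  obtain ⟨η, hη⟩ := Module.Projective.exists_dual_eq_one F hv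
  refine ⟨rk1 η w, rk1 ξ v, rk1_FR _ _, rk1_FR _ _, ?_⟩
  ext u
  rw [Module.End.mul_apply, Module.End.mul_apply, rk1_apply, rk1_apply, rk1_apply, map_smul,
    map_smul, hη, smul_eq_mul, mul_one]

end Pool.Agent.X280.UR
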