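import Mathlib

set_option autoImplicit false

namespace Pool.Agent.X280.UR

section Limit

variable (R₀ : Type) [Ring R₀] (φ : R₀ →+* R₀)

/-- the constant directed system with transition maps powers of `φ` -/
def tr (i j : ℕ) (_ : i ≤ j) : R₀ →+* R₀ := φ ^ (j - i)

instance dirSys : DirectedSystem (fun _ : ℕ => R₀) (fun i j h => (tr R₀ φ i j h : R₀ → R₀)) where
  map_self i x := by simp [tr]
  map_map k j i hij hjk x := by
    change (φ ^ (k - j)) ((φ ^ (j - i)) x) = (φ ^ (k - i)) x
    change ((φ ^ (k - j)) * (φ ^ (j - i))) x = (φ ^ (k - i)) x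
    rw [← pow_add]
    congr 2
    omega

abbrev Lim := DirectLimit (fun _ : ℕ => R₀) (tr R₀ φ)

theorem exists_level (x : Lim R₀ φ) :
    ∃ i a, x = DirectLimit.Ring.of (fun _ : ℕ => R₀) (tr R₀ φ) i a :=
  DirectLimit.exists_eq_mk _ x

theorem exists_level₂ (x y : Lim R₀ φ) :
    ∃ i a b, x = DirectLimit.Ring.of (fun _ : ℕ => R₀) (tr R₀ φ) i a ∧
      y = DirectLimit.Ring.of (fun _ : ℕ => R₀) (tr R₀ φ) i b :=
  DirectLimit.exists_eq_mk₂ _ x y

variable {R₀ φ}

theorem phi_pow_inj (hφ : Function.Injective φ) (n : ℕ) : Function.Injective (φ ^ n : R₀ →+* R₀) := by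
  induction n with
  | zero => intro a b h; simpa using h
  | succ n ih =>
    intro a b h
    rw [pow_succ] at h
    exact hφ (ih h)

theorem of_inj (hφ : Function.Injective φ) (i : ℕ) :
    Function.Injective (DirectLimit.Ring.of (fun _ : ℕ => R₀) (tr R₀ φ) i) :=
  DirectLimit.mk_injective (f := tr R₀ φ) (fun _ _ _ => phi_pow_inj hφ _) i

theorem of_step (i : ℕ) (a : R₀) : DirectLimit.Ring.of (fun _ : ℕ => R₀) (tr R₀ φ) (i + 1) (φ a) =
    DirectLimit.Ring.of (fun _ : ℕ => R₀) (tr R₀ φ) i a := by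
  have := DirectLimit.Ring.of_f (G := fun _ : ℕ => R₀) (f := tr R₀ φ) (Nat.le_succ i) a
  rw [← this]
  congr 1
  change φ a = (φ ^ (i.succ - i)) a
  simp

end Limit

/-- The abstract construction. -/
theorem main_abstract {R₀ : Type} [Ring R₀] {K : Type} [Field K] (π : R₀ →+* K) (φ : R₀ →+* R₀)
    (hφπ : ∀ x, π (φ x) = π x) (hφ : Function.Injective φ)
    (hreg : ∀ a : R₀, ∃ x : R₀, a * x * a = a)
    (hfin : ∀ x y : R₀, x * y = 1 → y * x = 1)
    (t : R₀) (ht : ∀ u : R₀ˣ, π t * π (u : R₀) * π t = π t → False)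
    (hfull : ∀ z : R₀, z ≠ 0 → ∀ y : R₀, π y = 0 → ∀ (S : Type) [Ring S] (g : R₀ →+* S),
      g (φ z) = 0 → g y = 0) :
    ¬ (∀ (R : Type) [Ring R],
      (∀ a : R, ∃ x : R, a * x * a = a) →
      (∀ (S : Type) [Ring S] (f : R →+* S), Function.Surjective f →
        ∀ x y : S, x * y = 1 → y * x = 1) →
      ∀ a : R, ∃ u : Rˣ, a * (u : R) * a = a) := by
  intro H
  let G : ℕ → Type := fun _ => R₀
  let of : ∀ _ : ℕ, R₀ →+* Lim R₀ φ := fun i => DirectLimit.Ring.of (fun _ : ℕ => R₀) (tr R₀ φ) i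
  have hof : ∀ i, Function.Injective (of i) := fun i => of_inj hφ i
  have hstep : ∀ i a, of (i + 1) (φ a) = of i a := of_step
  let pr : Lim R₀ φ →+* K := DirectLimit.Ring.lift (fun _ : ℕ => R₀) (tr R₀ φ) K (fun _ => π) (by
    intro i j hij x
    change π ((φ ^ (j - i)) x) = π x
    generalize j - i = n
    induction n generalizing x with
    | zero => simp
    | succ n ih =>
      rw [pow_succ]
      change π ((φ ^ n) (φ x)) = π x
      rw [ih, hφπ])
  have hpr : ∀ i a, pr (of i a) = π a := fun i a => rfl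
  have hdf : ∀ x y : Lim R₀ φ, x * y = 1 → y * x = 1 := by
    intro x y hxy
    obtain ⟨i, a, b, rfl, rfl⟩ := exists_level₂ R₀ φ x y
    have h1 : of i (a * b) = of i 1 := by rw [map_mul, map_one]; exact hxy
    have h2 := hfin a b (hof i h1)
    have h3 : of i (b * a) = 1 := by rw [h2, map_one]
    rw [map_mul] at h3
    exact h3
  obtain ⟨u, hu⟩ := H (Lim R₀ φ) (by
    intro a
    obtain ⟨i, a, rfl⟩ := exists_level R₀ φ a
    obtain ⟨x, hx⟩ := hreg a
    refine ⟨of i x, ?_⟩
    change of i a * of i x * of i a = of i a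
    rw [← map_mul, ← map_mul, hx]) (by
    intro S _ f hf x y hxy
    by_cases hker : ∃ r : Lim R₀ φ, r ≠ 0 ∧ f r = 0
    · obtain ⟨r, hr, hfr⟩ := hker
      -- f kills the kernel of pr
      have hJ : ∀ r' : Lim R₀ φ, pr r' = 0 → f r' = 0 := by
        intro r' hr'
        obtain ⟨i, a, b, rfl, rfl⟩ := exists_level₂ R₀ φ r r'
        have ha : a ≠ 0 := by
          intro h
          apply hr
          rw [h, map_zero]
        have h1 : (f.comp (of (i + 1))) (φ a) = 0 := by
          rw [RingHom.comp_apply, hstep]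
          exact hfr
        have h2 := hfull a ha (φ b) (by rw [hφπ]; exact hr') S (f.comp (of (i + 1))) h1
        rw [RingHom.comp_apply, hstep] at h2
        exact h2
      obtain ⟨a, rfl⟩ := hf x
      obtain ⟨b, rfl⟩ := hf y
      have h1 : f (b * a - a * b) = 0 := by
        apply hJ
        rw [map_sub, map_mul, map_mul, mul_comm, sub_self]
      rw [map_sub, sub_eq_zero, map_mul, map_mul] at h1
      rw [h1, hxy]
    · push Not at hker
      have hinj : Function.Injective f := by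
        rw [injective_iff_map_eq_zero]
        intro a ha
        by_contra h
        exact hker a h ha
      obtain ⟨a, rfl⟩ := hf x
      obtain ⟨b, rfl⟩ := hf y
      rw [← map_mul, ← map_one f] at hxy ⊢
      rw [hdf a b (hinj hxy)]) (of 0 t)
  -- now the unit u lives at some level
  obtain ⟨i, a, b, ha, hb⟩ := exists_level₂ R₀ φ (u : Lim R₀ φ) ((u⁻¹ : (Lim R₀ φ)ˣ) : Lim R₀ φ)
  have h1 : a * b = 1 := by
    apply hof i
    change of i (a * b) = of i 1
    rw [map_mul, map_one]
    change DirectLimit.Ring.of (fun _ : ℕ => R₀) (tr R₀ φ) i a *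
      DirectLimit.Ring.of (fun _ : ℕ => R₀) (tr R₀ φ) i b = 1
    rw [← ha, ← hb, ← Units.val_mul, mul_inv_cancel, Units.val_one]
  have h2 : b * a = 1 := hfin a b h1
  apply ht ⟨a, b, h1, h2⟩
  have h3 := congrArg pr hu
  rw [map_mul, map_mul, hpr, ha] at h3
  exact h3

end Pool.Agent.X280.UR
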