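import Mathlib
import Pool.Agent.X280.UR.FR
import Pool.Agent.X280.UR.Limit

set_option autoImplicit false

namespace Pool.Agent.X280.UR

variable {F : Type} [Field F] {V W : Type} [AddCommGroup V] [Module F V] [AddCommGroup W]
  [Module F W] {K : Type} [Field K]

/-- data for the level ring -/
structure Dat (F : Type) [Field F] (V W : Type) [AddCommGroup V] [Module F V] [AddCommGroup W]
    [Module F W] (K : Type) [Field K] where
  L : Subfield K
  TV : K →+ Module.End F V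
  TW : K →+ Module.End F W
  TV1 : TV 1 = 1
  TW1 : TW 1 = 1
  TVm : ∀ f ∈ L, ∀ g ∈ L, FR (TV f * TV g - TV (f * g))
  TWm : ∀ f ∈ L, ∀ g ∈ L, FR (TW f * TW g - TW (f * g))
  hTf : ∀ f ∈ L, FR (TV f) → f = 0
  trich : ∀ f ∈ L, f ≠ 0 →
    (TV f * TV f⁻¹ = 1 ∧ TV f⁻¹ * TV f = 1 ∧ TW f * TW f⁻¹ = 1 ∧ TW f⁻¹ * TW f = 1) ∨
    (TV f⁻¹ * TV f = 1 ∧ ¬ Function.Injective (TV f⁻¹)) ∨
    (TW f⁻¹ * TW f = 1 ∧ ¬ Function.Injective (TW f⁻¹))
  t : K
  tL : t ∈ L
  t0 : t ≠ 0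
  tpos : TV t⁻¹ * TV t = 1 ∧ ¬ Function.Injective (TV t⁻¹)
  θ : (V × V × W) ≃ₗ[F] V
  θ' : (V × W × W) ≃ₗ[F] W
  hθ : ∀ f ∈ L, FR (TV f ∘ₗ θ.toLinearMap -
    θ.toLinearMap ∘ₗ ((TV f).prodMap ((TV f).prodMap (TW f))))
  hθ' : ∀ f ∈ L, FR (TW f ∘ₗ θ'.toLinearMap -
    θ'.toLinearMap ∘ₗ ((TV f).prodMap ((TW f).prodMap (TW f))))

namespace Dat

variable (D : Dat F V W K)

/-- the level ring -/
def R0 : Subring (Module.End F V × Module.End F W × K) where
  carrier := {x | x.2.2 ∈ D.L ∧ FR (x.1 - D.TV x.2.2) ∧ FR (x.2.1 - D.TW x.2.2)}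
  mul_mem' := by
    rintro ⟨x, y, f⟩ ⟨x', y', f'⟩ ⟨h1, h2, h3⟩ ⟨h1', h2', h3'⟩
    refine ⟨D.L.mul_mem h1 h1', ?_, ?_⟩
    · change FR (x * x' - D.TV (f * f'))
      have : x * x' - D.TV (f * f') = (x - D.TV f) * x' + D.TV f * (x' - D.TV f') +
          (D.TV f * D.TV f' - D.TV (f * f')) := by noncomm_ring
      rw [this]
      exact ((FR.mul_right h2 x').add (FR.mul_left h2' _)).add (D.TVm f h1 f' h1')
    · change FR (y * y' - D.TW (f * f'))
      have : y * y' - D.TW (f * f') = (y - D.TW f) * y' + D.TW f * (y' - D.TW f') +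
          (D.TW f * D.TW f' - D.TW (f * f')) := by noncomm_ring
      rw [this]
      exact ((FR.mul_right h3 y').add (FR.mul_left h3' _)).add (D.TWm f h1 f' h1')
  one_mem' := by
    refine ⟨D.L.one_mem, ?_, ?_⟩
    · change FR (1 - D.TV 1)
      rw [D.TV1, sub_self]
      exact FR.zero
    · change FR (1 - D.TW 1)
      rw [D.TW1, sub_self]
      exact FR.zero
  add_mem' := by
    rintro ⟨x, y, f⟩ ⟨x', y', f'⟩ ⟨h1, h2, h3⟩ ⟨h1', h2', h3'⟩
    refine ⟨D.L.add_mem h1 h1', ?_, ?_⟩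
    · change FR (x + x' - D.TV (f + f'))
      rw [map_add, add_sub_add_comm]
      exact FR.add h2 h2'
    · change FR (y + y' - D.TW (f + f'))
      rw [map_add, add_sub_add_comm]
      exact FR.add h3 h3'
  zero_mem' := by
    refine ⟨D.L.zero_mem, ?_, ?_⟩
    · change FR (0 - D.TV 0)
      rw [map_zero, sub_self]
      exact FR.zero
    · change FR (0 - D.TW 0)
      rw [map_zero, sub_self]
      exact FR.zero
  neg_mem' := by
    rintro ⟨x, y, f⟩ ⟨h1, h2, h3⟩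
    refine ⟨D.L.neg_mem h1, ?_, ?_⟩
    · change FR (-x - D.TV (-f))
      rw [map_neg, neg_sub_neg]
      rw [← neg_sub]
      exact FR.neg h2
    · change FR (-y - D.TW (-f))
      rw [map_neg, neg_sub_neg]
      rw [← neg_sub]
      exact FR.neg h3

theorem mem_R0 (x : Module.End F V) (y : Module.End F W) (f : K) :
    (x, y, f) ∈ D.R0 ↔ f ∈ D.L ∧ FR (x - D.TV f) ∧ FR (y - D.TW f) := Iff.rfl

/-- the canonical lift of an element of `L` -/
def lf (f : K) (hf : f ∈ D.L) : D.R0 := ⟨(D.TV f, D.TW f, f), hf, by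
  change FR (D.TV f - D.TV f); rw [sub_self]; exact FR.zero, by
  change FR (D.TW f - D.TW f); rw [sub_self]; exact FR.zero⟩

/-- elements of the ideal of finite rank operators -/
def jj (x : Module.End F V) (y : Module.End F W) (hx : FR x) (hy : FR y) : D.R0 :=
  ⟨(x, y, 0), D.L.zero_mem, by
    change FR (x - D.TV 0); rw [map_zero, sub_zero]; exact hx, by
    change FR (y - D.TW 0); rw [map_zero, sub_zero]; exact hy⟩

/-- the projection to the field -/
def pr : D.R0 →+* K := ((RingHom.snd _ _).comp (RingHom.snd _ _)).comp D.R0.subtype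

theorem pr_apply (z : D.R0) : D.pr z = z.1.2.2 := rfl

theorem FR_of_pr (z : D.R0) (hz : D.pr z = 0) : FR z.1.1 ∧ FR z.1.2.1 := by
  obtain ⟨⟨x, y, f⟩, h1, h2, h3⟩ := z
  change f = 0 at hz
  subst hz
  change FR (x - D.TV 0) at h2
  change FR (y - D.TW 0) at h3
  rw [map_zero, sub_zero] at h2 h3
  exact ⟨h2, h3⟩

theorem eq_jj (z : D.R0) (hz : D.pr z = 0) :
    z = D.jj z.1.1 z.1.2.1 (D.FR_of_pr z hz).1 (D.FR_of_pr z hz).2 := by
  apply Subtype.ext
  obtain ⟨⟨x, y, f⟩, h1, h2, h3⟩ := z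
  change f = 0 at hz
  subst hz
  rfl

theorem reg_J (z : D.R0) (hz : D.pr z = 0) : ∃ w : D.R0, z * w * z = z := by
  obtain ⟨a, ha, ha2⟩ := (D.FR_of_pr z hz).1.exists_quasi
  obtain ⟨b, hb, hb2⟩ := (D.FR_of_pr z hz).2.exists_quasi
  refine ⟨D.jj a b ha hb, ?_⟩
  apply Subtype.ext
  refine Prod.ext ha2 (Prod.ext hb2 ?_)
  change z.1.2.2 * 0 * z.1.2.2 = z.1.2.2
  rw [← pr_apply, hz]
  simp

theorem reg (z : D.R0) : ∃ w : D.R0, z * w * z = z := by
  have hfL : D.pr z ∈ D.L := z.2.1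
  by_cases h0 : D.pr z = 0
  · exact D.reg_J z h0
  · let z0 : D.R0 := D.lf (D.pr z)⁻¹ (D.L.inv_mem hfL)
    have hz0 : D.pr z0 = (D.pr z)⁻¹ := rfl
    obtain ⟨b, hb⟩ := D.reg_J (z - z * z0 * z) (by
      rw [map_sub, map_mul, map_mul, hz0, mul_inv_cancel₀ h0, one_mul, sub_self])
    refine ⟨z0 + (1 - z0 * z) * b * (1 - z * z0), ?_⟩
    have : z * (z0 + (1 - z0 * z) * b * (1 - z * z0)) * z =
        z * z0 * z + (z - z * z0 * z) * b * (z - z * z0 * z) := by noncomm_ring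
    rw [this, hb]
    abel

/-- if `xy = 1` then `x` has index zero -/
theorem no_case {X : Type} [AddCommGroup X] [Module F X] (T T' x : Module.End F X)
    (h : T' * T = 1) (hx : FR (x - T)) (hsx : Function.Surjective x) :
    Function.Injective (T' * x) ∧ Function.Injective T' := by
  have h1 : T' * x = 1 + T' * (x - T) := by rw [mul_sub, h]; abel
  have hT's : Function.Surjective T' := by
    intro v
    exact ⟨T v, by rw [← Module.End.mul_apply, h]; rfl⟩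
  have h2 : Function.Surjective (1 + T' * (x - T) : Module.End F X) := by
    rw [← h1]
    exact hT's.comp hsx
  have h3 := pert_inj (FR.mul_left hx T') h2
  rw [← h1] at h3
  refine ⟨h3, ?_⟩
  intro a b hab
  obtain ⟨a', rfl⟩ := hsx a
  obtain ⟨b', rfl⟩ := hsx b
  have := h3 (a₁ := a') (a₂ := b') hab
  rw [this]

theorem pr_ne_zero {x y : D.R0} (h : x * y = 1) : D.pr x ≠ 0 := by
  intro h0
  have := congrArg D.pr h
  rw [map_mul, h0, zero_mul, map_one] at this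
  exact zero_ne_one this

theorem surj1 {x y : D.R0} (h : x * y = 1) : Function.Surjective x.1.1 := by
  intro v
  refine ⟨y.1.1 v, ?_⟩
  have h1 : x.1.1 * y.1.1 = 1 := congrArg (fun z : D.R0 => z.1.1) h
  rw [← Module.End.mul_apply, h1]
  rfl

theorem surj2 {x y : D.R0} (h : x * y = 1) : Function.Surjective x.1.2.1 := by
  intro v
  refine ⟨y.1.2.1 v, ?_⟩
  have h1 : x.1.2.1 * y.1.2.1 = 1 := congrArg (fun z : D.R0 => z.1.2.1) h
  rw [← Module.End.mul_apply, h1]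
  rfl

theorem fin (x y : D.R0) (h : x * y = 1) : y * x = 1 := by
  have hs1 := D.surj1 h
  have hs2 := D.surj2 h
  have hf0 := D.pr_ne_zero h
  have hfL : D.pr x ∈ D.L := x.2.1
  have hx1 : FR (x.1.1 - D.TV (D.pr x)) := x.2.2.1
  have hx2 : FR (x.1.2.1 - D.TW (D.pr x)) := x.2.2.2
  rcases D.trich (D.pr x) hfL hf0 with ⟨a1, a2, a3, a4⟩ | ⟨a1, a2⟩ | ⟨a1, a2⟩
  · have b1 := (no_case _ _ _ a2 hx1 hs1).1
    have b2 := (no_case _ _ _ a4 hx2 hs2).1
    have c1 : Function.Injective x.1.1 := fun a b hab => b1 (by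
      rw [Module.End.mul_apply, Module.End.mul_apply, hab])
    have c2 : Function.Injective x.1.2.1 := fun a b hab => b2 (by
      rw [Module.End.mul_apply, Module.End.mul_apply, hab])
    have e1 : x.1.1 * y.1.1 = 1 := congrArg (fun z : D.R0 => z.1.1) h
    have e2 : x.1.2.1 * y.1.2.1 = 1 := congrArg (fun z : D.R0 => z.1.2.1) h
    have e3 : x.1.2.2 * y.1.2.2 = 1 := congrArg (fun z : D.R0 => z.1.2.2) h
    apply Subtype.ext
    refine Prod.ext ?_ (Prod.ext ?_ ?_)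
    · change y.1.1 * x.1.1 = 1
      ext v
      apply c1
      rw [← Module.End.mul_apply, ← mul_assoc, e1, one_mul]
      rfl
    · change y.1.2.1 * x.1.2.1 = 1
      ext v
      apply c2
      rw [← Module.End.mul_apply, ← mul_assoc, e2, one_mul]
      rfl
    · change y.1.2.2 * x.1.2.2 = 1
      rw [mul_comm, e3]
  · exact absurd (no_case _ _ _ a1 hx1 hs1).2 a2
  · exact absurd (no_case _ _ _ a1 hx2 hs2).2 a2

theorem no_unit (u : D.R0ˣ) (h : D.pr (D.lf D.t D.tL) * D.pr (u : D.R0) * D.pr (D.lf D.t D.tL) =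
    D.pr (D.lf D.t D.tL)) : False := by
  have ht : D.pr (D.lf D.t D.tL) = D.t := rfl
  rw [ht] at h
  have h1 : D.t * D.pr (u : D.R0) = 1 := by
    apply mul_right_cancel₀ D.t0
    rw [h, one_mul]
  have h2 : D.pr ((u⁻¹ : D.R0ˣ) : D.R0) = D.t := by
    have h3 : D.pr ((u⁻¹ : D.R0ˣ) : D.R0) * D.pr (u : D.R0) = 1 := by
      rw [← map_mul, ← Units.val_mul, inv_mul_cancel, Units.val_one, map_one]
    have hu0 : D.pr (u : D.R0) ≠ 0 := right_ne_zero_of_mul_eq_one h1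
    apply mul_right_cancel₀ hu0
    rw [h3, h1]
  have h4 : ((u⁻¹ : D.R0ˣ) : D.R0) * (u : D.R0) = 1 := by
    rw [← Units.val_mul, inv_mul_cancel, Units.val_one]
  have hx1 : FR (((u⁻¹ : D.R0ˣ) : D.R0).1.1 - D.TV (D.pr ((u⁻¹ : D.R0ˣ) : D.R0))) :=
    ((u⁻¹ : D.R0ˣ) : D.R0).2.2.1
  rw [h2] at hx1
  exact D.tpos.2 (no_case _ _ _ D.tpos.1 hx1 (D.surj1 h4)).2

/-- ambient endomorphism -/
def Φ : Module.End F V × Module.End F W × K →+* Module.End F V × Module.End F W × K where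
  toFun z := (D.θ.toLinearMap ∘ₗ (z.1.prodMap (z.1.prodMap z.2.1)) ∘ₗ D.θ.symm.toLinearMap,
    D.θ'.toLinearMap ∘ₗ (z.1.prodMap (z.2.1.prodMap z.2.1)) ∘ₗ D.θ'.symm.toLinearMap, z.2.2)
  map_one' := by
    refine Prod.ext ?_ (Prod.ext ?_ rfl)
    · ext v
      change D.θ (D.θ.symm v) = v
      simp
    · ext v
      change D.θ' (D.θ'.symm v) = v
      simp
  map_mul' := by
    rintro ⟨x, y, f⟩ ⟨x', y', f'⟩
    refine Prod.ext ?_ (Prod.ext ?_ rfl)
    · ext v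
      simp
    · ext v
      simp
  map_zero' := by
    refine Prod.ext ?_ (Prod.ext ?_ rfl)
    · ext v
      change D.θ 0 = 0
      simp
    · ext v
      change D.θ' 0 = 0
      simp
  map_add' := by
    rintro ⟨x, y, f⟩ ⟨x', y', f'⟩
    refine Prod.ext ?_ (Prod.ext ?_ rfl)
    · ext v
      change D.θ ((x + x') (D.θ.symm v).1, (x + x') (D.θ.symm v).2.1, (y + y') (D.θ.symm v).2.2) =
        D.θ (x (D.θ.symm v).1, x (D.θ.symm v).2.1, y (D.θ.symm v).2.2) +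
        D.θ (x' (D.θ.symm v).1, x' (D.θ.symm v).2.1, y' (D.θ.symm v).2.2)
      rw [← map_add]
      rfl
    · ext v
      change D.θ' ((x + x') (D.θ'.symm v).1, (y + y') (D.θ'.symm v).2.1,
          (y + y') (D.θ'.symm v).2.2) =
        D.θ' (x (D.θ'.symm v).1, y (D.θ'.symm v).2.1, y (D.θ'.symm v).2.2) +
        D.θ' (x' (D.θ'.symm v).1, y' (D.θ'.symm v).2.1, y' (D.θ'.symm v).2.2)
      rw [← map_add]
      rfl

theorem Φ_mem (z : Module.End F V × Module.End F W × K) (hz : z ∈ D.R0) : D.Φ z ∈ D.R0 := by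
  obtain ⟨x, y, f⟩ := z
  obtain ⟨h1, h2, h3⟩ := hz
  change f ∈ D.L at h1
  change FR (x - D.TV f) at h2
  change FR (y - D.TW f) at h3
  have hP1 : FR ((LinearMap.inl F V (V × W)) ∘ₗ (x - D.TV f) ∘ₗ (LinearMap.fst F V (V × W))) :=
    (h2.comp_right _).comp_left _
  refine ⟨h1, ?_, ?_⟩
  · change FR (D.θ.toLinearMap ∘ₗ (x.prodMap (x.prodMap y)) ∘ₗ D.θ.symm.toLinearMap - D.TV f)
    have e : D.θ.toLinearMap ∘ₗ (x.prodMap (x.prodMap y)) ∘ₗ D.θ.symm.toLinearMap - D.TV f =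
      D.θ.toLinearMap ∘ₗ ((LinearMap.inl F V (V × W)) ∘ₗ (x - D.TV f) ∘ₗ
        (LinearMap.fst F V (V × W)) + (LinearMap.inr F V (V × W)) ∘ₗ
        ((LinearMap.inl F V W) ∘ₗ (x - D.TV f) ∘ₗ (LinearMap.fst F V W) +
         (LinearMap.inr F V W) ∘ₗ (y - D.TW f) ∘ₗ (LinearMap.snd F V W)) ∘ₗ
         (LinearMap.snd F V (V × W))) ∘ₗ D.θ.symm.toLinearMap -
      (D.TV f ∘ₗ D.θ.toLinearMap - D.θ.toLinearMap ∘ₗ
        ((D.TV f).prodMap ((D.TV f).prodMap (D.TW f)))) ∘ₗ D.θ.symm.toLinearMap := by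
      ext v
      simp only [LinearMap.sub_apply, LinearMap.comp_apply, LinearEquiv.coe_coe,
        LinearMap.add_apply, LinearEquiv.apply_symm_apply]
      rw [sub_sub_eq_add_sub, ← map_add]
      congr 2
      refine Prod.ext ?_ (Prod.ext ?_ ?_) <;> simp
    rw [e]
    refine FR.sub (FR.comp_left (FR.comp_right (FR.add ?_ ?_) _) _) (FR.comp_right (D.hθ f h1) _)
    · exact (h2.comp_right _).comp_left _
    · exact FR.comp_left (FR.comp_right (FR.add ((h2.comp_right _).comp_left _)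
        ((h3.comp_right _).comp_left _)) _) _
  · change FR (D.θ'.toLinearMap ∘ₗ (x.prodMap (y.prodMap y)) ∘ₗ D.θ'.symm.toLinearMap - D.TW f)
    have e : D.θ'.toLinearMap ∘ₗ (x.prodMap (y.prodMap y)) ∘ₗ D.θ'.symm.toLinearMap - D.TW f =
      D.θ'.toLinearMap ∘ₗ ((LinearMap.inl F V (W × W)) ∘ₗ (x - D.TV f) ∘ₗ
        (LinearMap.fst F V (W × W)) + (LinearMap.inr F V (W × W)) ∘ₗ
        ((LinearMap.inl F W W) ∘ₗ (y - D.TW f) ∘ₗ (LinearMap.fst F W W) +
         (LinearMap.inr F W W) ∘ₗ (y - D.TW f) ∘ₗ (LinearMap.snd F W W)) ∘ₗ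
         (LinearMap.snd F V (W × W))) ∘ₗ D.θ'.symm.toLinearMap -
      (D.TW f ∘ₗ D.θ'.toLinearMap - D.θ'.toLinearMap ∘ₗ
        ((D.TV f).prodMap ((D.TW f).prodMap (D.TW f)))) ∘ₗ D.θ'.symm.toLinearMap := by
      ext v
      simp only [LinearMap.sub_apply, LinearMap.comp_apply, LinearEquiv.coe_coe,
        LinearMap.add_apply, LinearEquiv.apply_symm_apply]
      rw [sub_sub_eq_add_sub, ← map_add]
      congr 2
      refine Prod.ext ?_ (Prod.ext ?_ ?_) <;> simp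
    rw [e]
    refine FR.sub (FR.comp_left (FR.comp_right (FR.add ?_ ?_) _) _) (FR.comp_right (D.hθ' f h1) _)
    · exact (h2.comp_right _).comp_left _
    · exact FR.comp_left (FR.comp_right (FR.add ((h3.comp_right _).comp_left _)
        ((h3.comp_right _).comp_left _)) _) _

/-- the endomorphism of the level ring -/
def φ : D.R0 →+* D.R0 := D.Φ.restrict D.R0 D.R0 D.Φ_mem

theorem φ1 (z : D.R0) : (D.φ z).1.1 =
    D.θ.toLinearMap ∘ₗ (z.1.1.prodMap (z.1.1.prodMap z.1.2.1)) ∘ₗ D.θ.symm.toLinearMap := rfl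

theorem φ2 (z : D.R0) : (D.φ z).1.2.1 =
    D.θ'.toLinearMap ∘ₗ (z.1.1.prodMap (z.1.2.1.prodMap z.1.2.1)) ∘ₗ D.θ'.symm.toLinearMap := rfl

theorem φ_pr (z : D.R0) : D.pr (D.φ z) = D.pr z := rfl

theorem zero1 (z : D.R0) (h : (D.φ z).1.1 = 0) : z.1.1 = 0 ∧ z.1.2.1 = 0 := by
  rw [φ1] at h
  constructor
  · ext v
    have := LinearMap.congr_fun h (D.θ (v, 0, 0))
    simp at this
    simpa using this
  · ext v
    have := LinearMap.congr_fun h (D.θ (0, 0, v))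
    simp at this
    simpa using this

theorem zero2 (z : D.R0) (h : (D.φ z).1.2.1 = 0) : z.1.1 = 0 ∧ z.1.2.1 = 0 := by
  rw [φ2] at h
  constructor
  · ext v
    have := LinearMap.congr_fun h (D.θ' (v, 0, 0))
    simp at this
    simpa using this
  · ext v
    have := LinearMap.congr_fun h (D.θ' (0, 0, v))
    simp at this
    simpa using this

theorem eq_zero (z : D.R0) (h1 : z.1.1 = 0) (h2 : z.1.2.1 = 0) : z = 0 := by
  have h3 : z.1.2.2 = 0 := by
    apply D.hTf _ z.2.1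
    have := z.2.2.1
    rw [h1, zero_sub] at this
    have := this.neg
    rwa [neg_neg] at this
  apply Subtype.ext
  exact Prod.ext h1 (Prod.ext h2 h3)

theorem φ_inj : Function.Injective D.φ := by
  rw [injective_iff_map_eq_zero]
  intro z hz
  have h1 : (D.φ z).1.1 = 0 := by rw [hz]; rfl
  obtain ⟨h2, h3⟩ := D.zero1 z h1
  exact D.eq_zero z h2 h3

theorem full1 (z : D.R0) (hz : z.1.1 ≠ 0) {S : Type} [Ring S] (g : D.R0 →+* S) (hg : g z = 0)
    (x : Module.End F V) (hx : FR x) : g (D.jj x 0 hx FR.zero) = 0 := by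
  obtain ⟨n, ξ, w, e⟩ := hx.exists_sum
  have h1 : D.jj x 0 hx FR.zero = ∑ i, D.jj (rk1 (ξ i) (w i)) 0 (rk1_FR _ _) FR.zero := by
    apply Subtype.ext
    rw [AddSubmonoidClass.coe_finsetSum]
    refine Prod.ext ?_ (Prod.ext ?_ ?_)
    · rw [Prod.fst_sum]
      exact e
    · rw [Prod.snd_sum, Prod.fst_sum]
      change 0 = ∑ i : Fin n, (0 : Module.End F W)
      simp
    · rw [Prod.snd_sum, Prod.snd_sum]
      change 0 = ∑ i : Fin n, (0 : K)
      simp
  rw [h1, map_sum]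
  apply Finset.sum_eq_zero
  intro i _
  obtain ⟨a, b, ha, hb, hab⟩ := rk1_factor z.1.1 hz (ξ i) (w i)
  have h2 : D.jj (rk1 (ξ i) (w i)) 0 (rk1_FR _ _) FR.zero =
      D.jj a 0 ha FR.zero * z * D.jj b 0 hb FR.zero := by
    apply Subtype.ext
    refine Prod.ext hab.symm (Prod.ext ?_ ?_)
    · change 0 = 0 * z.1.2.1 * 0
      simp
    · change 0 = 0 * z.1.2.2 * 0
      simp
  rw [h2, map_mul, map_mul, hg]
  simp

theorem full2 (z : D.R0) (hz : z.1.2.1 ≠ 0) {S : Type} [Ring S] (g : D.R0 →+* S) (hg : g z = 0)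
    (x : Module.End F W) (hx : FR x) : g (D.jj 0 x FR.zero hx) = 0 := by
  obtain ⟨n, ξ, w, e⟩ := hx.exists_sum
  have h1 : D.jj 0 x FR.zero hx = ∑ i, D.jj 0 (rk1 (ξ i) (w i)) FR.zero (rk1_FR _ _) := by
    apply Subtype.ext
    rw [AddSubmonoidClass.coe_finsetSum]
    refine Prod.ext ?_ (Prod.ext ?_ ?_)
    · rw [Prod.fst_sum]
      change 0 = ∑ i : Fin n, (0 : Module.End F V)
      simp
    · rw [Prod.snd_sum, Prod.fst_sum]
      exact e
    · rw [Prod.snd_sum, Prod.snd_sum]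
      change 0 = ∑ i : Fin n, (0 : K)
      simp
  rw [h1, map_sum]
  apply Finset.sum_eq_zero
  intro i _
  obtain ⟨a, b, ha, hb, hab⟩ := rk1_factor z.1.2.1 hz (ξ i) (w i)
  have h2 : D.jj 0 (rk1 (ξ i) (w i)) FR.zero (rk1_FR _ _) =
      D.jj 0 a FR.zero ha * z * D.jj 0 b FR.zero hb := by
    apply Subtype.ext
    refine Prod.ext ?_ (Prod.ext hab.symm ?_)
    · change 0 = 0 * z.1.1 * 0
      simp
    · change 0 = 0 * z.1.2.2 * 0
      simp
  rw [h2, map_mul, map_mul, hg]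
  simp

theorem full (z : D.R0) (hz : z ≠ 0) (y : D.R0) (hy : D.pr y = 0) (S : Type) [Ring S]
    (g : D.R0 →+* S) (hg : g (D.φ z) = 0) : g y = 0 := by
  have h1 : (D.φ z).1.1 ≠ 0 := by
    intro h
    obtain ⟨h2, h3⟩ := D.zero1 z h
    exact hz (D.eq_zero z h2 h3)
  have h2 : (D.φ z).1.2.1 ≠ 0 := by
    intro h
    obtain ⟨h2, h3⟩ := D.zero2 z h
    exact hz (D.eq_zero z h2 h3)
  have e : y = D.jj y.1.1 0 (D.FR_of_pr y hy).1 FR.zero + D.jj 0 y.1.2.1 FR.zero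
      (D.FR_of_pr y hy).2 := by
    apply Subtype.ext
    refine Prod.ext ?_ (Prod.ext ?_ ?_)
    · change y.1.1 = y.1.1 + 0
      simp
    · change y.1.2.1 = 0 + y.1.2.1
      simp
    · change y.1.2.2 = 0 + 0
      rw [← pr_apply, hy]
      simp
  rw [e, map_add, D.full1 _ h1 g hg, D.full2 _ h2 g hg, add_zero]

include D in
/-- conclusion from the data -/
theorem conclusion : ¬ (∀ (R : Type) [Ring R],
      (∀ a : R, ∃ x : R, a * x * a = a) →
      (∀ (S : Type) [Ring S] (f : R →+* S), Function.Surjective f →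
        ∀ x y : S, x * y = 1 → y * x = 1) →
      ∀ a : R, ∃ u : Rˣ, a * (u : R) * a = a) :=
  main_abstract D.pr D.φ D.φ_pr D.φ_inj D.reg D.fin (D.lf D.t D.tL) D.no_unit
    (fun z hz y hy S _ g hg => D.full z hz y hy S g hg)

end Dat

end Pool.Agent.X280.UR
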