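import Mathlib
import Pool.Agent.X280.UR.Level

set_option autoImplicit false

namespace Pool.Agent.X280.UR

noncomputable section

variable (F : Type) [Field F]

/-- Laurent series field -/
abbrev LS := HahnSeries ℤ F

instance i1 : IsScalarTower F (LS F) (LS F) where
  smul_assoc c f g := by
    rw [← HahnSeries.C_mul_eq_smul, ← HahnSeries.C_mul_eq_smul, smul_eq_mul, smul_eq_mul, mul_assoc]

instance i2 : SMulCommClass F (LS F) (LS F) where
  smul_comm c f g := by
    rw [← HahnSeries.C_mul_eq_smul, ← HahnSeries.C_mul_eq_smul, smul_eq_mul, smul_eq_mul]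
    ring

instance i3 : SMulCommClass (LS F) F (LS F) := SMulCommClass.symm _ _ _

/-- power series part -/
def AA : Submodule F (LS F) where
  carrier := {f | ∀ n : ℤ, n < 0 → f.coeff n = 0}
  add_mem' := by
    intro a b ha hb n hn
    rw [HahnSeries.coeff_add, ha n hn, hb n hn, add_zero]
  zero_mem' := by intro n _; simp
  smul_mem' := by
    intro c a ha n hn
    rw [HahnSeries.coeff_smul, ha n hn, smul_zero]

/-- polar part -/
def BB : Submodule F (LS F) where
  carrier := {f | ∀ n : ℤ, 0 ≤ n → f.coeff n = 0}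
  add_mem' := by
    intro a b ha hb n hn
    rw [HahnSeries.coeff_add, ha n hn, hb n hn, add_zero]
  zero_mem' := by intro n _; simp
  smul_mem' := by
    intro c a ha n hn
    rw [HahnSeries.coeff_smul, ha n hn, smul_zero]

variable {F} in
theorem mem_AA (f : LS F) : f ∈ (AA F) ↔ ∀ n : ℤ, n < 0 → f.coeff n = 0 := Iff.rfl
variable {F} in
theorem mem_BB (f : LS F) : f ∈ (BB F) ↔ ∀ n : ℤ, 0 ≤ n → f.coeff n = 0 := Iff.rfl

variable {F}

/-- projection to the polar part -/
def QQ : LS F →ₗ[F] LS F := HahnSeries.truncLTLinearMap F 0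

theorem QQ_coeff (f : LS F) (n : ℤ) : (QQ f).coeff n = if n < 0 then f.coeff n else 0 := rfl

/-- projection to the power series part -/
def PP : LS F →ₗ[F] LS F := LinearMap.id - QQ

theorem PP_apply (f : LS F) : PP f = f - QQ f := rfl

theorem PP_coeff (f : LS F) (n : ℤ) : (PP f).coeff n = if n < 0 then 0 else f.coeff n := by
  rw [PP_apply, HahnSeries.coeff_sub, QQ_coeff]
  split_ifs <;> simp

theorem PP_add_QQ (f : LS F) : PP f + QQ f = f := by rw [PP_apply]; abel

theorem PP_mem (f : LS F) : PP f ∈ (AA F) := by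
  intro n hn
  rw [PP_coeff, if_pos hn]

theorem QQ_mem (f : LS F) : QQ f ∈ (BB F) := by
  intro n hn
  rw [QQ_coeff, if_neg (not_lt.2 hn)]

theorem PP_of_mem {f : LS F} (hf : f ∈ (AA F)) : PP f = f := by
  ext n
  rw [PP_coeff]
  split_ifs with h
  · exact (hf n h).symm
  · rfl

theorem QQ_of_mem {f : LS F} (hf : f ∈ (BB F)) : QQ f = f := by
  ext n
  rw [QQ_coeff]
  split_ifs with h
  · rfl
  · exact (hf n (not_lt.1 h)).symm

theorem PP_of_mem_BB {f : LS F} (hf : f ∈ (BB F)) : PP f = 0 := by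
  rw [PP_apply, QQ_of_mem hf, sub_self]

theorem QQ_of_mem_AA {f : LS F} (hf : f ∈ (AA F)) : QQ f = 0 := by
  have := PP_add_QQ f
  rw [PP_of_mem hf] at this
  simpa using this

theorem AA_iff_order {f : LS F} (hf : f ≠ 0) : f ∈ (AA F) ↔ 0 ≤ f.order := by
  rw [HahnSeries.le_order_iff_forall hf]
  rfl

theorem AA_mul {f g : LS F} (hf : f ∈ (AA F)) (hg : g ∈ (AA F)) :
    f * g ∈ (AA F) := by
  by_cases h1 : f = 0
  · rw [h1, zero_mul]; exact Submodule.zero_mem _
  by_cases h2 : g = 0
  · rw [h2, mul_zero]; exact Submodule.zero_mem _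
  rw [AA_iff_order h1] at hf
  rw [AA_iff_order h2] at hg
  rw [AA_iff_order (mul_ne_zero h1 h2), HahnSeries.order_mul h1 h2]
  omega

theorem AA_one : (1 : LS F) ∈ (AA F) := by
  rw [AA_iff_order one_ne_zero, HahnSeries.order_one]

theorem AA_inv {f : LS F} (hf : f ∉ (AA F)) : f⁻¹ ∈ (AA F) := by
  have h0 : f ≠ 0 := by
    rintro rfl
    exact hf (Submodule.zero_mem _)
  rw [AA_iff_order h0] at hf
  have h1 : (f * f⁻¹).order = f.order + f⁻¹.order := HahnSeries.order_mul h0 (inv_ne_zero h0)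
  rw [mul_inv_cancel₀ h0, HahnSeries.order_one] at h1
  rw [AA_iff_order (inv_ne_zero h0)]
  omega

/-- corestricted projections -/
def pA : LS F →ₗ[F] (AA F) := PP.codRestrict _ PP_mem
def pB : LS F →ₗ[F] (BB F) := QQ.codRestrict _ QQ_mem

theorem pA_coe (f : LS F) : (pA f : LS F) = PP f := rfl
theorem pB_coe (f : LS F) : (pB f : LS F) = QQ f := rfl

/-- multiplication operator -/
def mu (f : LS F) : LS F →ₗ[F] LS F := LinearMap.mulLeft F f

theorem mu_apply (f g : LS F) : mu f g = f * g := rfl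

/-- commutator with the projection -/
def CC (f : LS F) : LS F →ₗ[F] LS F := PP ∘ₗ mu f - mu f ∘ₗ PP

theorem CC_apply (f g : LS F) : CC f g = PP (f * g) - f * PP g := rfl

theorem CC_mul (f g : LS F) : CC (f * g) = CC f ∘ₗ mu g + mu f ∘ₗ CC g := by
  ext1 x
  simp only [LinearMap.add_apply, LinearMap.comp_apply, CC_apply, mu_apply]
  rw [mul_assoc]
  ring

theorem CC_inv (f : LS F) (hf : f ≠ 0) : CC f⁻¹ = - (mu f⁻¹ ∘ₗ CC f ∘ₗ mu f⁻¹) := by
  ext1 x
  simp only [LinearMap.neg_apply, LinearMap.comp_apply, CC_apply, mu_apply]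
  rw [← mul_assoc, mul_inv_cancel₀ hf, one_mul, mul_sub, ← mul_assoc, inv_mul_cancel₀ hf, one_mul]
  ring

theorem CC_add (f g : LS F) : CC (f + g) = CC f + CC g := by
  ext1 x
  simp only [LinearMap.add_apply, CC_apply, add_mul, map_add]
  ring

theorem CC_neg (f : LS F) : CC (-f) = - CC f := by
  ext1 x
  simp only [LinearMap.neg_apply, CC_apply, neg_mul, map_neg]
  ring

/-- the field of elements almost commuting with the projection -/
def LL : Subfield (LS F) where
  carrier := {f | FR (CC f)}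
  mul_mem' := by
    intro f g hf hg
    change FR (CC (f * g))
    rw [CC_mul]
    exact (FR.comp_right hf _).add (FR.comp_left hg _)
  one_mem' := by
    change FR (CC (1 : LS F))
    have : CC (1 : LS F) = 0 := by
      ext1 x
      simp [CC_apply]
    rw [this]
    exact FR.zero
  add_mem' := by
    intro f g hf hg
    change FR (CC (f + g))
    rw [CC_add]
    exact FR.add hf hg
  zero_mem' := by
    change FR (CC (0 : LS F))
    have : CC (0 : LS F) = 0 := by
      ext1 x
      simp [CC_apply]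
    rw [this]
    exact FR.zero
  neg_mem' := by
    intro f hf
    change FR (CC (-f))
    rw [CC_neg]
    exact FR.neg hf
  inv_mem' := by
    intro f hf
    change FR (CC f⁻¹)
    by_cases h : f = 0
    · subst h
      rw [inv_zero]
      exact hf
    · rw [CC_inv f h]
      exact FR.neg (FR.comp_left (FR.comp_right hf _) _)

theorem mem_LL (f : LS F) : f ∈ (LL : Subfield (LS F)) ↔ FR (CC f) := Iff.rfl

/-- the uniformiser -/
def tt : LS F := HahnSeries.single 1 1

theorem tt_mem : tt ∈ (LL : Subfield (LS F)) := by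
  rw [mem_LL]
  let ξ : LS F →ₗ[F] F :=
    { toFun := fun f => f.coeff (-1)
      map_add' := by intro a b; simp
      map_smul' := by intro a b; simp }
  have : CC (tt : LS F) = rk1 ξ (HahnSeries.single 0 1) := by
    ext1 x
    rw [CC_apply, rk1_apply]
    ext n
    rw [HahnSeries.coeff_sub, PP_coeff, HahnSeries.coeff_smul]
    have h1 : ∀ y : LS F, (tt * y).coeff n = y.coeff (n - 1) := by
      intro y
      rw [tt, HahnSeries.coeff_single_mul, one_mul]
    rw [h1, h1, PP_coeff, HahnSeries.coeff_single]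
    change _ = x.coeff (-1) • _
    by_cases hn : n = 0
    · subst hn
      simp
    · by_cases hn2 : n < 0
      · have : n - 1 < 0 := by omega
        simp [hn, hn2, this]
      · have : ¬ (n - 1 < 0) := by omega
        simp [hn, hn2, this]
  rw [this]
  exact rk1_FR _ _

/-- the space `N` -/
abbrev NN (F : Type) [Field F] := ℕ →₀ LS F

abbrev VV (F : Type) [Field F] := ↥(AA F) × NN F
abbrev WW (F : Type) [Field F] := ↥(BB F) × NN F

/-- scalar action on `N` -/
def sN (f : LS F) : NN F →ₗ[F] NN F where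
  toFun n := f • n
  map_add' a b := smul_add f a b
  map_smul' c a := by
    exact smul_comm f c a

theorem sN_apply (f : LS F) (n : NN F) : sN f n = f • n := rfl

def TV : LS F →+ Module.End F (VV F) where
  toFun f := LinearMap.prodMap (pA ∘ₗ mu f ∘ₗ (AA F).subtype) (sN f)
  map_zero' := by
    ext x <;> simp [mu_apply, sN_apply]
  map_add' f g := by
    ext x <;> simp [mu_apply, sN_apply, add_mul, add_smul]

def TW : LS F →+ Module.End F (WW F) where
  toFun f := LinearMap.prodMap (pB ∘ₗ mu f ∘ₗ (BB F).subtype) (sN f)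
  map_zero' := by
    ext x <;> simp [mu_apply, sN_apply]
  map_add' f g := by
    ext x <;> simp [mu_apply, sN_apply, add_mul, add_smul]

theorem TV_apply (f : LS F) (v : VV F) : TV f v = (pA (f * (v.1 : LS F)), f • v.2) := rfl
theorem TW_apply (f : LS F) (v : WW F) : TW f v = (pB (f * (v.1 : LS F)), f • v.2) := rfl

theorem TV_one : TV (1 : LS F) = 1 := by
  refine LinearMap.ext fun v => ?_
  rw [TV_apply, one_mul, one_smul]
  refine Prod.ext (Subtype.ext ?_) rfl
  rw [pA_coe, PP_of_mem v.1.2]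
  rfl

theorem TW_one : TW (1 : LS F) = 1 := by
  refine LinearMap.ext fun v => ?_
  rw [TW_apply, one_mul, one_smul]
  refine Prod.ext (Subtype.ext ?_) rfl
  rw [pB_coe, QQ_of_mem v.1.2]
  rfl

theorem TV_mul (f g : LS F) (hg : g ∈ (LL : Subfield (LS F))) :
    FR (TV f * TV g - TV (f * g)) := by
  have : TV f * TV g - TV (f * g) = (LinearMap.inl F (AA F) (NN F)) ∘ₗ
      pA ∘ₗ mu f ∘ₗ CC g ∘ₗ (AA F).subtype ∘ₗ
      (LinearMap.fst F (AA F) (NN F)) := by
    refine LinearMap.ext fun v => ?_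
    rw [LinearMap.sub_apply, Module.End.mul_apply, TV_apply, TV_apply, TV_apply]
    refine Prod.ext ?_ ?_
    · change pA (f * (pA (g * (v.1 : LS F)) : LS F)) - pA (f * g * (v.1 : LS F)) =
        pA (f * CC g v.1)
      rw [← map_sub, CC_apply, pA_coe, PP_of_mem v.1.2]
      congr 1
      ring
    · change f • (g • v.2) - (f * g) • v.2 = 0
      rw [mul_smul, sub_self]
  rw [this]
  exact FR.comp_left (FR.comp_left (FR.comp_left (FR.comp_right hg _) _) _) _

theorem TW_mul (f g : LS F) (hg : g ∈ (LL : Subfield (LS F))) :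
    FR (TW f * TW g - TW (f * g)) := by
  have : TW f * TW g - TW (f * g) = - ((LinearMap.inl F (BB F) (NN F)) ∘ₗ
      pB ∘ₗ mu f ∘ₗ CC g ∘ₗ (BB F).subtype ∘ₗ
      (LinearMap.fst F (BB F) (NN F))) := by
    refine LinearMap.ext fun v => ?_
    rw [LinearMap.sub_apply, Module.End.mul_apply, TW_apply, TW_apply, TW_apply,
      LinearMap.neg_apply]
    refine Prod.ext ?_ ?_
    · change pB (f * (pB (g * (v.1 : LS F)) : LS F)) - pB (f * g * (v.1 : LS F)) =
        - pB (f * CC g v.1)
      rw [← map_sub, ← map_neg, CC_apply, pB_coe, PP_of_mem_BB v.1.2, mul_zero, sub_zero]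
      have := PP_add_QQ (g * (v.1 : LS F))
      have h2 : QQ (g * (v.1 : LS F)) = g * (v.1 : LS F) - PP (g * (v.1 : LS F)) := by
        rw [eq_sub_iff_add_eq, add_comm]; exact this
      rw [h2]
      congr 1
      ring
    · change f • (g • v.2) - (f * g) • v.2 = - 0
      rw [mul_smul, sub_self, neg_zero]
  rw [this]
  exact FR.neg (FR.comp_left (FR.comp_left (FR.comp_left (FR.comp_right hg _) _) _) _)

theorem NN_inf : ¬ FiniteDimensional F (NN F) := by
  intro h
  have h1 : LinearIndependent F (fun i : ℕ => (Finsupp.single i (1 : LS F) : NN F)) := by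
    rw [linearIndependent_iff']
    intro s g hg i hi
    have h2 := congrArg (fun f : NN F => f i) hg
    simp only [Finsupp.coe_finsetSum, Finset.sum_apply, Finsupp.smul_apply] at h2
    rw [Finset.sum_eq_single i] at h2
    · simpa using h2
    · intro j _ hj
      simp [hj]
    · intro h; exact absurd hi h
  exact (inferInstance : Infinite ℕ).not_finite h1.finite

theorem TV_fr (f : LS F) (h : FR (TV f)) : f = 0 := by
  by_contra hf
  have h1 : FR (LinearMap.id : NN F →ₗ[F] NN F) := by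
    have : (LinearMap.id : NN F →ₗ[F] NN F) = sN f⁻¹ ∘ₗ
      (LinearMap.snd F (AA F) (NN F)) ∘ₗ TV f ∘ₗ
      (LinearMap.inr F (AA F) (NN F)) := by
      refine LinearMap.ext fun n => ?_
      change n = f⁻¹ • (f • n)
      rw [smul_smul, inv_mul_cancel₀ hf, one_smul]
    rw [this]
    exact FR.comp_left (FR.comp_left (FR.comp_right h _) _) _
  unfold FR at h1
  rw [LinearMap.range_id] at h1
  exact NN_inf (F := F) (Module.finite_def.2 (Submodule.fg_top _ |>.1 (Module.finite_def.1 h1)))

/-- claim for elements of `A` -/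
theorem case_V (f : LS F) (hf : f ∈ (AA F)) (h0 : f ≠ 0) :
    TV f⁻¹ * TV f = 1 := by
  refine LinearMap.ext fun v => ?_
  rw [Module.End.mul_apply, TV_apply, TV_apply]
  refine Prod.ext (Subtype.ext ?_) ?_
  · change PP (f⁻¹ * PP (f * (v.1 : LS F))) = v.1
    rw [PP_of_mem (AA_mul hf v.1.2), ← mul_assoc, inv_mul_cancel₀ h0, one_mul, PP_of_mem v.1.2]
  · change f⁻¹ • (f • v.2) = v.2
    rw [smul_smul, inv_mul_cancel₀ h0, one_smul]

theorem case_W (f : LS F) (hf : f ∈ (AA F)) (h0 : f ≠ 0) :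
    TW f * TW f⁻¹ = 1 := by
  refine LinearMap.ext fun v => ?_
  rw [Module.End.mul_apply, TW_apply, TW_apply]
  refine Prod.ext (Subtype.ext ?_) ?_
  · change QQ (f * QQ (f⁻¹ * (v.1 : LS F))) = v.1
    have h2 : QQ (f⁻¹ * (v.1 : LS F)) = f⁻¹ * (v.1 : LS F) - PP (f⁻¹ * (v.1 : LS F)) := by
      rw [eq_sub_iff_add_eq, add_comm]; exact PP_add_QQ _
    rw [h2, mul_sub, ← mul_assoc, mul_inv_cancel₀ h0, one_mul, map_sub, QQ_of_mem v.1.2,
      QQ_of_mem_AA (AA_mul hf (PP_mem _)), sub_zero]
  · change f • (f⁻¹ • v.2) = v.2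
    rw [smul_smul, mul_inv_cancel₀ h0, one_smul]

theorem noninj_V (f : LS F) (hf : f ∈ (AA F)) (h0 : f ≠ 0)
    (hg : f⁻¹ ∉ (AA F)) : ¬ Function.Injective (TV f⁻¹) := by
  intro hinj
  have h1 : TV f * TV f⁻¹ = 1 := by
    refine LinearMap.ext fun v => ?_
    apply hinj
    rw [← Module.End.mul_apply, ← mul_assoc, case_V f hf h0, one_mul]
    rfl
  have h2 := LinearMap.congr_fun h1 ((⟨1, AA_one⟩ : (AA F)), 0)
  rw [Module.End.mul_apply, TV_apply, TV_apply] at h2
  have h3 : PP (f * PP (f⁻¹ * 1)) = 1 := congrArg (fun v : VV F => (v.1 : LS F)) h2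
  rw [PP_of_mem (AA_mul hf (PP_mem _)), mul_one] at h3
  apply hg
  have h4 : PP f⁻¹ = f⁻¹ := by
    apply mul_left_cancel₀ h0
    rw [h3, mul_inv_cancel₀ h0]
  rw [← h4]
  exact PP_mem _

theorem noninj_W (f : LS F) (hf : f ∉ (AA F)) : ¬ Function.Injective (TW f⁻¹) := by
  intro hinj
  have h0 : f ≠ 0 := by
    rintro rfl
    exact hf (Submodule.zero_mem _)
  have h1 : TW f⁻¹ (pB f, 0) = 0 := by
    rw [TW_apply]
    refine Prod.ext (Subtype.ext ?_) ?_
    · change QQ (f⁻¹ * QQ f) = 0
      have h2 : QQ f = f - PP f := by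
        rw [eq_sub_iff_add_eq, add_comm]; exact PP_add_QQ _
      rw [h2, mul_sub, inv_mul_cancel₀ h0, map_sub, QQ_of_mem_AA AA_one,
        QQ_of_mem_AA (AA_mul (AA_inv hf) (PP_mem _)), sub_zero]
    · change f⁻¹ • (0 : NN F) = 0
      simp
  have h2 : ((pB f, 0) : WW F) = 0 := hinj (by rw [h1, map_zero])
  have h3 : QQ f = 0 := congrArg (fun v : WW F => (v.1 : LS F)) h2
  apply hf
  have := PP_add_QQ f
  rw [h3, add_zero] at this
  rw [← this]
  exact PP_mem _

theorem exists_eN : Nonempty ((LS F × NN F × NN F × NN F) ≃ₗ[LS F] NN F) := by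
  apply nonempty_linearEquiv_of_rank_eq
  simp
  exact Cardinal.add_eq_right (le_refl _) (Cardinal.one_le_aleph0)

def eN : (LS F × NN F × NN F × NN F) ≃ₗ[LS F] NN F := Classical.choice exists_eN

end

end Pool.Agent.X280.UR
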