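import Mathlib
import Pool.Agent.X280.UR.Concrete

set_option autoImplicit false

namespace Pool.Agent.X280.UR

noncomputable section

variable {F : Type} [Field F]

/-- the equivalence as an `F`-linear map -/
def eF : (LS F × NN F × NN F × NN F) ≃ₗ[F] NN F where
  toFun := eN
  invFun := eN.symm
  left_inv := eN.left_inv
  right_inv := eN.right_inv
  map_add' := map_add eN
  map_smul' := by
    intro c x
    have h1 : ∀ y : LS F × NN F × NN F × NN F, c • y = (HahnSeries.C c : LS F) • y := by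
      intro y
      refine Prod.ext ?_ (Prod.ext ?_ (Prod.ext ?_ ?_))
      · change c • y.1 = (HahnSeries.C c : LS F) * y.1
        rw [HahnSeries.C_mul_eq_smul]
      · ext1 i
        change c • (y.2.1 i) = (HahnSeries.C c : LS F) * (y.2.1 i)
        rw [HahnSeries.C_mul_eq_smul]
      · ext1 i
        change c • (y.2.2.1 i) = (HahnSeries.C c : LS F) * (y.2.2.1 i)
        rw [HahnSeries.C_mul_eq_smul]
      · ext1 i
        change c • (y.2.2.2 i) = (HahnSeries.C c : LS F) * (y.2.2.2 i)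
        rw [HahnSeries.C_mul_eq_smul]
    have h2 : ∀ y : NN F, c • y = (HahnSeries.C c : LS F) • y := by
      intro y
      ext1 i
      change c • (y i) = (HahnSeries.C c : LS F) * (y i)
      rw [HahnSeries.C_mul_eq_smul]
    rw [h1, RingHom.id_apply, h2, map_smul]

theorem eF_smul (f : LS F) (x : LS F × NN F × NN F × NN F) : eF (f • x) = f • (eF x) :=
  map_smul eN f x

def θ₁ : (VV F × VV F × WW F) ≃ₗ[F] VV F where
  toFun p := (p.1.1, eF ((p.2.1.1 : LS F) + (p.2.2.1 : LS F), p.1.2, p.2.1.2, p.2.2.2))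
  invFun q := ((q.1, (eF.symm q.2).2.1), (pA (eF.symm q.2).1, (eF.symm q.2).2.2.1),
    (pB (eF.symm q.2).1, (eF.symm q.2).2.2.2))
  left_inv := by
    rintro ⟨⟨a, m⟩, ⟨a', m'⟩, ⟨b, m''⟩⟩
    simp only [LinearEquiv.symm_apply_apply]
    refine Prod.ext rfl (Prod.ext (Prod.ext (Subtype.ext ?_) rfl) (Prod.ext (Subtype.ext ?_) rfl))
    · change PP ((a' : LS F) + (b : LS F)) = a'
      rw [map_add, PP_of_mem a'.2, PP_of_mem_BB b.2, add_zero]
    · change QQ ((a' : LS F) + (b : LS F)) = b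
      rw [map_add, QQ_of_mem_AA a'.2, QQ_of_mem b.2, zero_add]
  right_inv := by
    rintro ⟨a, n⟩
    refine Prod.ext rfl ?_
    change eF (PP (eF.symm n).1 + QQ (eF.symm n).1, (eF.symm n).2.1, (eF.symm n).2.2.1,
      (eF.symm n).2.2.2) = n
    rw [PP_add_QQ]
    exact LinearEquiv.apply_symm_apply _ _
  map_add' := by
    rintro ⟨⟨a, m⟩, ⟨a', m'⟩, ⟨b, m''⟩⟩ ⟨⟨c, n⟩, ⟨c', n'⟩, ⟨d, n''⟩⟩
    refine Prod.ext rfl ?_
    change eF _ = eF _ + eF _
    rw [← map_add]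
    congr 1
    refine Prod.ext ?_ rfl
    change (a' : LS F) + (c' : LS F) + ((b : LS F) + (d : LS F)) =
      (a' : LS F) + (b : LS F) + ((c' : LS F) + (d : LS F))
    abel
  map_smul' := by
    rintro r ⟨⟨a, m⟩, ⟨a', m'⟩, ⟨b, m''⟩⟩
    refine Prod.ext rfl ?_
    change eF _ = r • eF _
    rw [← map_smul]
    congr 1
    refine Prod.ext ?_ rfl
    change r • (a' : LS F) + r • (b : LS F) = r • ((a' : LS F) + (b : LS F))
    rw [smul_add]

def θ₂ : (VV F × WW F × WW F) ≃ₗ[F] WW F where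
  toFun p := (p.2.2.1, eF ((p.1.1 : LS F) + (p.2.1.1 : LS F), p.1.2, p.2.1.2, p.2.2.2))
  invFun q := ((pA (eF.symm q.2).1, (eF.symm q.2).2.1), (pB (eF.symm q.2).1, (eF.symm q.2).2.2.1),
    (q.1, (eF.symm q.2).2.2.2))
  left_inv := by
    rintro ⟨⟨a, m⟩, ⟨a', m'⟩, ⟨b, m''⟩⟩
    simp only [LinearEquiv.symm_apply_apply]
    refine Prod.ext (Prod.ext (Subtype.ext ?_) rfl) (Prod.ext (Prod.ext (Subtype.ext ?_) rfl) rfl)
    · change PP ((a : LS F) + (a' : LS F)) = a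
      rw [map_add, PP_of_mem a.2, PP_of_mem_BB a'.2, add_zero]
    · change QQ ((a : LS F) + (a' : LS F)) = a'
      rw [map_add, QQ_of_mem_AA a.2, QQ_of_mem a'.2, zero_add]
  right_inv := by
    rintro ⟨a, n⟩
    refine Prod.ext rfl ?_
    change eF (PP (eF.symm n).1 + QQ (eF.symm n).1, (eF.symm n).2.1, (eF.symm n).2.2.1,
      (eF.symm n).2.2.2) = n
    rw [PP_add_QQ]
    exact LinearEquiv.apply_symm_apply _ _
  map_add' := by
    rintro ⟨⟨a, m⟩, ⟨a', m'⟩, ⟨b, m''⟩⟩ ⟨⟨c, n⟩, ⟨c', n'⟩, ⟨d, n''⟩⟩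
    refine Prod.ext rfl ?_
    change eF _ = eF _ + eF _
    rw [← map_add]
    congr 1
    refine Prod.ext ?_ rfl
    change (a : LS F) + (c : LS F) + ((a' : LS F) + (c' : LS F)) =
      (a : LS F) + (a' : LS F) + ((c : LS F) + (c' : LS F))
    abel
  map_smul' := by
    rintro r ⟨⟨a, m⟩, ⟨a', m'⟩, ⟨b, m''⟩⟩
    refine Prod.ext rfl ?_
    change eF _ = r • eF _
    rw [← map_smul]
    congr 1
    refine Prod.ext ?_ rfl
    change r • (a : LS F) + r • (a' : LS F) = r • ((a : LS F) + (a' : LS F))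
    rw [smul_add]

theorem θ₁_apply (p : VV F × VV F × WW F) : θ₁ p =
    (p.1.1, eF ((p.2.1.1 : LS F) + (p.2.2.1 : LS F), p.1.2, p.2.1.2, p.2.2.2)) := rfl

theorem θ₂_apply (p : VV F × WW F × WW F) : θ₂ p =
    (p.2.2.1, eF ((p.1.1 : LS F) + (p.2.1.1 : LS F), p.1.2, p.2.1.2, p.2.2.2)) := rfl

/-- the difference map -/
def del₁ : (VV F × VV F × WW F) →ₗ[F] LS F :=
  (BB F).subtype ∘ₗ (LinearMap.fst F _ _) ∘ₗ (LinearMap.snd F _ _) ∘ₗ (LinearMap.snd F _ _) -
  (AA F).subtype ∘ₗ (LinearMap.fst F _ _) ∘ₗ (LinearMap.fst F _ _) ∘ₗ (LinearMap.snd F _ _)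

def del₂ : (VV F × WW F × WW F) →ₗ[F] LS F :=
  (BB F).subtype ∘ₗ (LinearMap.fst F _ _) ∘ₗ (LinearMap.fst F _ _) ∘ₗ (LinearMap.snd F _ _) -
  (AA F).subtype ∘ₗ (LinearMap.fst F _ _) ∘ₗ (LinearMap.fst F _ _)

theorem del₁_apply (p : VV F × VV F × WW F) : del₁ p = (p.2.2.1 : LS F) - (p.2.1.1 : LS F) := rfl
theorem del₂_apply (p : VV F × WW F × WW F) : del₂ p = (p.2.1.1 : LS F) - (p.1.1 : LS F) := rfl

theorem key_id (f : LS F) (a b : LS F) (ha : a ∈ AA F) (hb : b ∈ BB F) :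
    f * (a + b) - (PP (f * a) + QQ (f * b)) = CC f (b - a) := by
  rw [map_sub, CC_apply, CC_apply, PP_of_mem ha, PP_of_mem_BB hb, mul_zero, sub_zero]
  have h2 : QQ (f * b) = f * b - PP (f * b) := by
    rw [eq_sub_iff_add_eq, add_comm]; exact PP_add_QQ _
  rw [h2]
  ring

theorem hθ₁ (f : LS F) (hf : f ∈ (LL : Subfield (LS F))) : FR (TV f ∘ₗ θ₁.toLinearMap -
    θ₁.toLinearMap ∘ₗ ((TV f).prodMap ((TV f).prodMap (TW f)))) := by
  have : TV f ∘ₗ θ₁.toLinearMap - θ₁.toLinearMap ∘ₗ ((TV f).prodMap ((TV f).prodMap (TW f))) =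
      (LinearMap.inr F (AA F) (NN F)) ∘ₗ eF.toLinearMap ∘ₗ
      (LinearMap.inl F (LS F) (NN F × NN F × NN F)) ∘ₗ CC f ∘ₗ del₁ := by
    refine LinearMap.ext fun p => ?_
    rw [LinearMap.sub_apply, LinearMap.comp_apply, LinearMap.comp_apply]
    change TV f (θ₁ p) - θ₁ (TV f p.1, TV f p.2.1, TW f p.2.2) =
      (0, eF (CC f (del₁ p), 0))
    rw [θ₁_apply, θ₁_apply, TV_apply, TV_apply, TV_apply, TW_apply, ← eF_smul, del₁_apply]
    refine Prod.ext (sub_self _) ?_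
    change eF _ - eF _ = eF _
    rw [← map_sub]
    congr 1
    refine Prod.ext ?_ (Prod.ext ?_ (Prod.ext ?_ ?_))
    · exact key_id f _ _ p.2.1.1.2 p.2.2.1.2
    · exact sub_self _
    · exact sub_self _
    · exact sub_self _
  rw [this]
  exact FR.comp_left (FR.comp_left (FR.comp_left (FR.comp_right hf _) _) _) _

theorem hθ₂ (f : LS F) (hf : f ∈ (LL : Subfield (LS F))) : FR (TW f ∘ₗ θ₂.toLinearMap -
    θ₂.toLinearMap ∘ₗ ((TV f).prodMap ((TW f).prodMap (TW f)))) := by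
  have : TW f ∘ₗ θ₂.toLinearMap - θ₂.toLinearMap ∘ₗ ((TV f).prodMap ((TW f).prodMap (TW f))) =
      (LinearMap.inr F (BB F) (NN F)) ∘ₗ eF.toLinearMap ∘ₗ
      (LinearMap.inl F (LS F) (NN F × NN F × NN F)) ∘ₗ CC f ∘ₗ del₂ := by
    refine LinearMap.ext fun p => ?_
    rw [LinearMap.sub_apply, LinearMap.comp_apply, LinearMap.comp_apply]
    change TW f (θ₂ p) - θ₂ (TV f p.1, TW f p.2.1, TW f p.2.2) =
      (0, eF (CC f (del₂ p), 0))
    rw [θ₂_apply, θ₂_apply, TW_apply, TV_apply, TW_apply, TW_apply, ← eF_smul, del₂_apply]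
    refine Prod.ext (sub_self _) ?_
    change eF _ - eF _ = eF _
    rw [← map_sub]
    congr 1
    refine Prod.ext ?_ (Prod.ext ?_ (Prod.ext ?_ ?_))
    · exact key_id f _ _ p.1.1.2 p.2.1.1.2
    · exact sub_self _
    · exact sub_self _
    · exact sub_self _
  rw [this]
  exact FR.comp_left (FR.comp_left (FR.comp_left (FR.comp_right hf _) _) _) _

theorem tt_ne : (tt : LS F) ≠ 0 := by
  rw [tt, Ne, HahnSeries.single_eq_zero_iff]
  exact one_ne_zero

theorem tt_inv : (tt : LS F)⁻¹ = HahnSeries.single (-1) 1 := by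
  rw [inv_eq_iff_eq_inv]
  symm
  apply inv_eq_of_mul_eq_one_left
  rw [tt, HahnSeries.single_mul_single]
  simp

theorem tt_AA : (tt : LS F) ∈ AA F := by
  intro n hn
  rw [tt, HahnSeries.coeff_single_of_ne (by omega)]

theorem tt_inv_AA : (tt : LS F)⁻¹ ∉ AA F := by
  intro h
  have := h (-1) (by omega)
  rw [tt_inv, HahnSeries.coeff_single_same] at this
  exact one_ne_zero this

/-- The data. -/
def theDat (F : Type) [Field F] : Dat F (VV F) (WW F) (LS F) where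
  L := LL
  TV := TV
  TW := TW
  TV1 := TV_one
  TW1 := TW_one
  TVm f _ g hg := TV_mul f g hg
  TWm f _ g hg := TW_mul f g hg
  hTf f _ h := TV_fr f h
  trich f _ h0 := by
    by_cases h1 : f ∈ AA F
    · by_cases h2 : f⁻¹ ∈ AA F
      · left
        have a1 := case_V f h1 h0
        have a2 := case_V f⁻¹ h2 (inv_ne_zero h0)
        have a3 := case_W f h1 h0
        have a4 := case_W f⁻¹ h2 (inv_ne_zero h0)
        rw [inv_inv] at a2 a4
        exact ⟨a2, a1, a3, a4⟩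
      · right; left
        exact ⟨case_V f h1 h0, noninj_V f h1 h0 h2⟩
    · right; right
      have a4 := case_W f⁻¹ (AA_inv h1) (inv_ne_zero h0)
      rw [inv_inv] at a4
      exact ⟨a4, noninj_W f h1⟩
  t := tt
  tL := tt_mem
  t0 := tt_ne
  tpos := ⟨case_V tt tt_AA tt_ne, noninj_V tt tt_AA tt_ne tt_inv_AA⟩
  θ := θ₁
  θ' := θ₂
  hθ := hθ₁
  hθ' := hθ₂

theorem final : ¬ (∀ (R : Type) [Ring R],
      (∀ a : R, ∃ x : R, a * x * a = a) →
      (∀ (S : Type) [Ring S] (f : R →+* S), Function.Surjective f →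
        ∀ x y : S, x * y = 1 → y * x = 1) →
      ∀ a : R, ∃ u : Rˣ, a * (u : R) * a = a) :=
  (theDat (ZMod 2)).conclusion

end

end Pool.Agent.X280.UR
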